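import Mathlib
import Pool.Agent.H551R3.KokFin2

set_option autoImplicit false
set_option linter.unusedSectionVars false

/-! Characters with algebraic values, over a finite field. -/

namespace Pool.Agent.Y80.KK

open Pool.Agent.H551R3.Kok

universe u

section Pw

variable {A : Type u} [NonUnitalNonAssocRing A] [KokA A]

theorem exists_pw_zero {x : A} (h : Nil x) : ∃ k, pw x k = 0 := by
  obtain ⟨n, hn⟩ := h
  refine ⟨n, em_eq_zero ?_⟩
  rw [em_pw, pow_succ, hn, zero_mul]

/-- powers with exponent divisible by the characteristic are central -/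
theorem cen_pw_of_dvd {q : ℕ} (hq : 2 ≤ q) (hA : ∀ x : A, q • x = 0) (r : A) :
    Cen (pw r (q - 1)) := cen_pw_char hq hA r

variable {F : Type u} [Field F] [Module F A] {K : Type u} [Field K] [Algebra F K]

theorem chi_pw (χ : A →ₗ[F] K) (hmul : ∀ x y, χ (P x y) = χ x * χ y) (r : A) (k : ℕ) :
    χ (pw r k) = χ r ^ (k + 1) := by
  induction k with
  | zero => rw [zero_add, pow_one]; rfl
  | succ k ih =>
    change χ (P (pw r k) r) = _
    rw [hmul, ih, pow_succ _ (k + 1)]

end Pw

section Alg

variable {F : Type u} [Field F] [NeZero (2 : F)] {A : Type u} [NonUnitalNonAssocRing A]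
  [Module F A] [IsScalarTower F A A] [SMulCommClass F A A] [KokA A]
  {K : Type u} [Field K] [Algebra F K]

/-- an algebraic element over a finite field of characteristic `p` is a root of
`X ^ (p ^ n) - X` -/
theorem exists_frob [Finite F] {p : ℕ} (hp : p.Prime) [CharP F p] (θ : K)
    (hθ : IsAlgebraic F θ) : ∃ n : ℕ, 0 < n ∧ θ ^ (p ^ n) = θ := by
  classical
  have : Fact p.Prime := ⟨hp⟩
  let L := IntermediateField.adjoin F ({θ} : Set K)
  have hfd : FiniteDimensional F L :=
    IntermediateField.adjoin.finiteDimensional (isAlgebraic_iff_isIntegral.1 hθ)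
  have hfin : Finite L := Module.finite_of_finite F
  have : Fintype L := Fintype.ofFinite L
  have hchar : CharP L p := charP_of_injective_algebraMap (algebraMap F L).injective p
  obtain ⟨n, hp', hn⟩ := FiniteField.card L p
  refine ⟨n, n.2, ?_⟩
  have h1 : (⟨θ, IntermediateField.mem_adjoin_simple_self F θ⟩ : L) ^ Fintype.card L =
      ⟨θ, IntermediateField.mem_adjoin_simple_self F θ⟩ := FiniteField.pow_card _
  rw [hn] at h1
  have h2 := congrArg (fun x : L => (x : K)) h1
  simpa using h2

/-- The algebraic case. -/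
theorem not_la_alg [Finite F] {p : ℕ} (hp : p.Prime) [CharP F p]
    {T : Set (FreeNonUnitalNonAssocAlgebra F ℕ)} (hT : Sat T A) {a b : A}
    (χ : A →ₗ[F] K) (hmul : ∀ x y, χ (P x y) = χ x * χ y) (hχ : χ (br a b) ≠ 0)
    (ha : IsAlgebraic F (χ a)) (hb : IsAlgebraic F (χ b)) : ¬ LocallyAdmissible T := by
  have hpA : ∀ x : A, p • x = 0 := by
    intro x
    rw [← Nat.cast_smul_eq_nsmul F, CharP.cast_eq_zero, zero_smul]
  have key : ∀ c : A, IsAlgebraic F (χ c) → ∃ g : A, Cen g ∧ χ (c - g) = 0 := by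
    intro c hc
    obtain ⟨n, hn, h⟩ := exists_frob hp (χ c) hc
    have hq2 : 2 ≤ p ^ n := hp.two_le.trans (Nat.le_self_pow hn.ne' p)
    have hqA : ∀ x : A, (p ^ n) • x = 0 := by
      intro x
      obtain ⟨m, rfl⟩ : ∃ m, n = m + 1 := ⟨n - 1, by omega⟩
      rw [pow_succ, mul_smul, hpA, smul_zero]
    refine ⟨pw c (p ^ n - 1), cen_pw_of_dvd hq2 hqA c, ?_⟩
    rw [map_sub, chi_pw χ hmul, Nat.sub_add_cancel (by omega), h, sub_self]
  obtain ⟨g, hg, hag⟩ := key a ha
  obtain ⟨g', hg', hbg⟩ := key b hb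
  have hbr : br (a - g) (b - g') = br a b := by
    have h1 : br (a - g) (b - g') = br a b - br g b - (br a g' - br g g') := by
      simp only [br, mul_sub, sub_mul]
      abel
    have h2 : br a g' = 0 := by rw [br_swap, hg' a, neg_zero]
    rw [h1, hg b, hg g', h2, sub_zero, sub_zero, sub_zero]
  refine not_locallyAdmissible_of (LinearMap.ker χ) ?_ hT (α := a - g) (β := b - g') hag hbg ?_
  · intro n hn x
    rw [LinearMap.mem_ker] at *
    rw [hmul, hn, mul_zero]
  · intro k hk
    rw [hbr, LinearMap.mem_ker, chi_pw χ hmul] at hk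
    exact hχ (pow_eq_zero_iff (Nat.succ_ne_zero k) |>.1 hk)

end Alg

end Pool.Agent.Y80.KK
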