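import Mathlib
import Pool.Agent.Y80.KK.Alg

set_option autoImplicit false
set_option linter.unusedSectionVars false

/-! Localisation at the central elements of an infinite domain. -/

open TensorProduct

namespace Pool.Agent.Y80.KK

open Pool.Agent.H551R3.Kok

universe u

section Tri

variable {C M : Type u} [CommRing C] [NonUnitalNonAssocRing M] [Module C M]
  [IsScalarTower C M M] [SMulCommClass C M M]

theorem br_ss (μ ν : C) (x y : M) : br (μ • x) (ν • y) = (μ * ν) • br x y := by
  simp only [br, smul_mul_assoc, mul_smul_comm, smul_smul, smul_sub, mul_comm ν μ]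

theorem asc_ss (μ ν ρ : C) (x y z : M) :
    asc (μ • x) (ν • y) (ρ • z) = (μ * ν * ρ) • asc x y z := by
  simp only [asc, smul_mul_assoc, mul_smul_comm, smul_smul, smul_sub]
  congr 1 <;> first | rfl | (congr 1 <;> ring)

theorem kok_ss (μ ν ρ : C) (x y z : M) (h : jac x y z = (4 : ℤ) • asc x y z - br (br x z) y) :
    jac (μ • x) (ν • y) (ρ • z) =
      (4 : ℤ) • asc (μ • x) (ν • y) (ρ • z) - br (br (μ • x) (ρ • z)) (ν • y) := by
  have e1 : jac (μ • x) (ν • y) (ρ • z) = (μ * ν * ρ) • jac x y z := by
    unfold jac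
    rw [br_ss, br_ss, br_ss, br_ss, br_ss, br_ss, smul_add, smul_add]
    congr 1
    · congr 1
      congr 1; ring
    · congr 1; ring
  have e2 : br (br (μ • x) (ρ • z)) (ν • y) = (μ * ν * ρ) • br (br x z) y := by
    rw [br_ss, br_ss]
    congr 1; ring
  rw [e1, e2, asc_ss, h, smul_sub, smul_comm (4 : ℤ)]

end Tri

section Loc

variable {F : Type u} [Field F] {D : Type u} [CommRing D] [IsDomain D] [Algebra F D]
  {A : Type u} [NonUnitalNonAssocRing A] [Module D A] [IsScalarTower D A A] [SMulCommClass D A A]

/-- the image of `A` in the localisation -/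
noncomputable def io (D : Type u) [CommRing D] [IsDomain D] {A : Type u} [NonUnitalNonAssocRing A]
    [Module D A] (x : A) : FractionRing D ⊗[D] A := (1 : FractionRing D) ⊗ₜ[D] x

theorem io_add (x y : A) : io D (x + y) = io D x + io D y := TensorProduct.tmul_add _ _ _

theorem io_mul (x y : A) : io D (x * y) = io D x * io D y := by
  unfold io
  rw [Algebra.TensorProduct.tmul_mul_tmul, one_mul]

theorem io_sub (x y : A) : io D (x - y) = io D x - io D y := TensorProduct.tmul_sub _ _ _

theorem io_smul (d : D) (x : A) : io D (d • x) = algebraMap D (FractionRing D) d • io D x := by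
  unfold io
  rw [TensorProduct.tmul_smul, TensorProduct.smul_tmul', TensorProduct.smul_tmul',
    Algebra.smul_def, smul_eq_mul]

theorem io_br (x y : A) : io D (br x y) = br (io D x) (io D y) := by
  unfold br
  rw [io_sub, io_mul, io_mul]

theorem io_P (x y : A) : io D (P x y) = P (io D x) (io D y) := by
  unfold P
  rw [io_add, io_mul, io_mul]

theorem exists_rep (t : FractionRing D ⊗[D] A) :
    ∃ (μ : FractionRing D) (y : A), t = μ • io D y := by
  obtain ⟨⟨m, s⟩, h⟩ := IsLocalizedModule.surj (nonZeroDivisors D)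
    (TensorProduct.mk D (FractionRing D) A 1) t
  have hs : algebraMap D (FractionRing D) (s : D) ≠ 0 :=
    IsFractionRing.to_map_ne_zero_of_mem_nonZeroDivisors s.2
  refine ⟨(algebraMap D (FractionRing D) (s : D))⁻¹, m, ?_⟩
  have h1 : algebraMap D (FractionRing D) (s : D) • t = io D m := by
    have h2 : (s : D) • t = io D m := h
    rw [algebraMap_smul]; exact h2
  rw [← h1, smul_smul, inv_mul_cancel₀ hs, one_smul]

theorem io_eq_zero {x : A} (h : io D x = 0) : ∃ s : D, s ≠ 0 ∧ s • x = 0 := by
  have h1 := (IsLocalizedModule.eq_zero_iff (nonZeroDivisors D)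
    (TensorProduct.mk D (FractionRing D) A 1) (m := x)).1 h
  obtain ⟨s, hs⟩ := h1
  exact ⟨s, nonZeroDivisors.ne_zero s.2, hs⟩

theorem kok_loc (hA : IsKokoris A) : IsKokoris (FractionRing D ⊗[D] A) := by
  intro x y z
  obtain ⟨μ, a, rfl⟩ := exists_rep x
  obtain ⟨ν, b, rfl⟩ := exists_rep y
  obtain ⟨ρ, c, rfl⟩ := exists_rep z
  apply kok_ss
  have h := hA a b c
  have h1 := congrArg (io D) h
  have e4 : ∀ w : A, io D ((4 : ℤ) • w) = (4 : ℤ) • io D w := fun w =>
    map_zsmul (TensorProduct.mk D (FractionRing D) A 1) (4 : ℤ) w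
  have hj : io D (jac a b c) = jac (io D a) (io D b) (io D c) := by
    unfold jac
    simp only [io_add, io_br]
  have ha : io D (asc a b c) = asc (io D a) (io D b) (io D c) := by
    unfold asc
    simp only [io_sub, io_mul]
  rw [hj, io_sub, e4, ha, io_br, io_br] at h1
  exact h1

variable [Module F A] [IsScalarTower F A A] [SMulCommClass F A A] [IsScalarTower F D A]

theorem io_smulF (r : F) (x : A) : io D (r • x) = r • io D x := by
  rw [← algebraMap_smul D r x, io_smul, ← IsScalarTower.algebraMap_apply F D (FractionRing D),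
    algebraMap_smul]

theorem sat_io {T : Set (FreeNonUnitalNonAssocAlgebra F ℕ)} (hT : Sat T A)
    (f : FreeNonUnitalNonAssocAlgebra F ℕ) (hf : f ∈ T) (v : ℕ → A) :
    FreeNonUnitalNonAssocAlgebra.lift F (fun i => io D (v i)) f = 0 := by
  have h1 := hT f hf v
  have h2 : FreeNonUnitalNonAssocAlgebra.lift F v f = ev (RingHom.id F) v f := rfl
  have h3 : FreeNonUnitalNonAssocAlgebra.lift F (fun i => io D (v i)) f =
      ev (RingHom.id F) (fun i => io D (v i)) f := rfl
  rw [h3]
  have h4 := ev_map (F := F) (R := F) (R' := F) (RingHom.id F) (RingHom.id F)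
    (g := fun x : A => io D x) io_add io_mul (fun r x => io_smulF r x) v f
  rw [← h2, h1] at h4
  have h5 : io D (0 : A) = 0 := TensorProduct.tmul_zero _ _
  rw [h5] at h4
  exact h4.symm

theorem sat_loc [Infinite D] {T : Set (FreeNonUnitalNonAssocAlgebra F ℕ)} (hT : Sat T A) :
    Sat T (FractionRing D ⊗[D] A) := by
  intro f hf w
  have hw : ∀ j, ∃ (μ : FractionRing D) (y : A), w j = μ • io D y := fun j => exists_rep (w j)
  choose μ y hy using hw
  let C := FractionRing D
  let M := FractionRing D ⊗[D] A
  let b := Module.Basis.ofVectorSpace C M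
  let R := MvPolynomial (ULift.{u} ℕ) C
  let g : ℕ → R ⊗[C] M := fun j => (MvPolynomial.X ⟨j⟩ : R) ⊗ₜ[C] (io D (y j))
  have hinj : Function.Injective (algebraMap D C) := IsFractionRing.injective D C
  have hspc : ∀ (t : R →ₐ[C] C) (j : ℕ), spc t (g j) = t (MvPolynomial.X ⟨j⟩) • io D (y j) :=
    fun t j => spc_tmul t _ _
  have hv : ev ((algebraMap C R).comp (algebraMap F C)) g f = 0 := by
    have h1 : (Algebra.TensorProduct.basis R b).repr
        (ev ((algebraMap C R).comp (algebraMap F C)) g f) = 0 := by
      refine Finsupp.ext fun i => ?_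
      rw [Finsupp.zero_apply]
      apply MvPolynomial.funext_set (fun _ => Set.range (algebraMap D C))
        (fun _ => Set.infinite_range_of_injective hinj)
      intro x hx
      rw [map_zero]
      have hx' : ∀ j : ℕ, ∃ d : D, algebraMap D C d = x ⟨j⟩ := fun j => hx ⟨j⟩ (Set.mem_univ _)
      choose d hd using hx'
      have h2 : MvPolynomial.eval x ((Algebra.TensorProduct.basis R b).repr
          (ev ((algebraMap C R).comp (algebraMap F C)) g f) i) =
          (MvPolynomial.aeval x : R →ₐ[C] C) ((Algebra.TensorProduct.basis R b).repr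
          (ev ((algebraMap C R).comp (algebraMap F C)) g f) i) := by
        rw [MvPolynomial.aeval_eq_eval]
      rw [h2, ← spc_repr (MvPolynomial.aeval x : R →ₐ[C] C) b, ev_spc, comp_algebraMap,
        ← lift_eq_ev]
      have h3 : (fun j => spc (A := M) (MvPolynomial.aeval x : R →ₐ[C] C) (g j)) =
          fun j => io D (d j • y j) := by
        funext j
        rw [hspc, MvPolynomial.aeval_X, io_smul, hd]
      rw [h3, sat_io hT f hf, map_zero, Finsupp.zero_apply]
    exact (LinearEquiv.map_eq_zero_iff _).mp h1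
  let t : R →ₐ[C] C := MvPolynomial.aeval (fun s => μ s.down)
  have h6 := ev_spc (A := M) t ((algebraMap C R).comp (algebraMap F C)) g f
  rw [hv, map_zero, comp_algebraMap, ← lift_eq_ev] at h6
  have h8 : (fun j => spc (A := M) t (g j)) = w := by
    funext j
    rw [hspc, MvPolynomial.aeval_X, hy]
  rw [h8] at h6
  exact h6.symm

end Loc

end Pool.Agent.Y80.KK
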