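import Mathlib
import Pool.Agent.Y80.KK.Loc

set_option autoImplicit false
set_option linter.unusedSectionVars false

/-! Commutators are nilpotent: the case of a finite field. -/

open TensorProduct Polynomial

namespace Pool.Agent.Y80.KK

open Pool.Agent.H551R3.Kok

universe u

section Cent

variable {F : Type u} [Field F] [NeZero (2 : F)] {A : Type u} [NonUnitalNonAssocRing A]
  [Module F A] [IsScalarTower F A A] [SMulCommClass F A A] [KokA A]

theorem zP (x y : A) : (2 : ℤ) • P x y = P x ((2 : ℤ) • y) := by
  simp only [P, mul_smul_comm, smul_mul_assoc, smul_add]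

theorem cen_mul_left {w : A} (hw : Cen w) (x y : A) : P w x * y = P w (x * y) := by
  rw [← sub_eq_zero]
  apply KokA.noTwo (A := A)
  rw [smul_sub, zP w (x * y), two_mul', two_mul', cen_br_P hw, PA, P_add, sub_self]

theorem cen_mul_right {w : A} (hw : Cen w) (x y : A) : x * P w y = P w (x * y) := by
  rw [← sub_eq_zero]
  apply KokA.noTwo (A := A)
  have h1 : br x (P w y) = P w (br x y) := by
    rw [br_swap, cen_br_P hw, br_swap y x]
    simp only [P, mul_neg, neg_mul]
    abel
  rw [smul_sub, zP w (x * y), two_mul', two_mul', h1, ← PA x, P_comm x w, PA, P_add, sub_self]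

/-- the action of polynomials by a central element -/
noncomputable def act (F : Type u) [Field F] {A : Type u} [NonUnitalNonAssocRing A] [Module F A]
    [IsScalarTower F A A] [SMulCommClass F A A] (w : A) : F[X] →+* Module.End F A :=
  ((Polynomial.aeval (PL F w : Module.End F A) : F[X] →ₐ[F] Module.End F A) : F[X] →+* Module.End F A)

theorem act_add (w : A) (q r : F[X]) (x : A) : act F w (q + r) x = act F w q x + act F w r x := by
  rw [map_add]; rfl

theorem act_mono (w : A) (n : ℕ) (r : F) (x : A) :
    act F w (monomial n r) x = r • ((PL F w : Module.End F A) ^ n) x := by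
  change (Polynomial.aeval (PL F w : Module.End F A)) (monomial n r) x = _
  rw [Polynomial.aeval_monomial, ← Algebra.smul_def]
  rfl

theorem pow_left {w : A} (hw : Cen w) (n : ℕ) (x y : A) :
    ((PL F w : Module.End F A) ^ n) x * y = ((PL F w : Module.End F A) ^ n) (x * y) := by
  induction n with
  | zero => rfl
  | succ n ih =>
    rw [pow_succ']
    change P w (((PL F w : Module.End F A) ^ n) x) * y = P w (((PL F w : Module.End F A) ^ n) (x * y))
    rw [cen_mul_left hw, ih]

theorem pow_right {w : A} (hw : Cen w) (n : ℕ) (x y : A) :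
    x * ((PL F w : Module.End F A) ^ n) y = ((PL F w : Module.End F A) ^ n) (x * y) := by
  induction n with
  | zero => rfl
  | succ n ih =>
    rw [pow_succ']
    change x * P w (((PL F w : Module.End F A) ^ n) y) = P w (((PL F w : Module.End F A) ^ n) (x * y))
    rw [cen_mul_right hw, ih]

theorem act_left {w : A} (hw : Cen w) (q : F[X]) (x y : A) :
    act F w q x * y = act F w q (x * y) := by
  induction q using Polynomial.induction_on' with
  | add p q hp hq => rw [act_add, act_add, add_mul, hp, hq]
  | monomial n r => rw [act_mono, act_mono, smul_mul_assoc, pow_left hw]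

theorem act_right {w : A} (hw : Cen w) (q : F[X]) (x y : A) :
    x * act F w q y = act F w q (x * y) := by
  induction q using Polynomial.induction_on' with
  | add p q hp hq => rw [act_add, act_add, mul_add, hp, hq]
  | monomial n r => rw [act_mono, act_mono, mul_smul_comm, pow_right hw]

variable {K : Type u} [Field K] [Algebra F K]

theorem chi_act (χ : A →ₗ[F] K) (hmul : ∀ x y, χ (P x y) = χ x * χ y) (w : A) (q : F[X]) (x : A) :
    χ (act F w q x) = aeval (χ w) q * χ x := by
  induction q using Polynomial.induction_on' with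
  | add p q hp hq => rw [act_add, map_add, hp, hq, map_add, add_mul]
  | monomial n r =>
    rw [act_mono, map_smul, Polynomial.aeval_monomial, mul_assoc, ← Algebra.smul_def]
    congr 1
    induction n with
    | zero => rw [pow_zero, pow_zero, one_mul]; rfl
    | succ n ih =>
      rw [pow_succ', pow_succ']
      change χ (P w (((PL F w : Module.End F A) ^ n) x)) = _
      rw [hmul, ih, mul_assoc]

/-- The transcendental case. -/
theorem not_la_transc {T : Set (FreeNonUnitalNonAssocAlgebra F ℕ)} (hT : Sat T A) {a b w : A}
    (hw : Cen w) (χ : A →ₗ[F] K) (hmul : ∀ x y, χ (P x y) = χ x * χ y) (hχ : χ (br a b) ≠ 0)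
    (hτ : Transcendental F (χ w)) : ¬ LocallyAdmissible T := by
  letI i1 : Module F[X] A := Module.compHom A (act F w)
  have hsm : ∀ (q : F[X]) (x : A), q • x = act F w q x := fun q x => rfl
  haveI i2 : IsScalarTower F[X] A A := ⟨fun q x y => by
    rw [smul_eq_mul, smul_eq_mul, hsm, hsm, act_left hw]⟩
  haveI i3 : SMulCommClass F[X] A A := ⟨fun q x y => by
    rw [smul_eq_mul, smul_eq_mul, hsm, hsm, act_right hw]⟩
  haveI i4 : IsScalarTower F F[X] A := ⟨fun r q x => by
    rw [hsm, hsm]
    change (Polynomial.aeval (PL F w : Module.End F A)) (r • q) x = _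
    rw [map_smul]
    rfl⟩
  have hsat : Sat T (FractionRing F[X] ⊗[F[X]] A) := sat_loc hT
  haveI hk : KokA (FractionRing F[X] ⊗[F[X]] A) :=
    ⟨noTwo_of_module (F := F), kok_loc KokA.kok⟩
  have hinf : Infinite (FractionRing F[X]) :=
    Infinite.of_injective _ (IsFractionRing.injective F[X] (FractionRing F[X]))
  refine not_locallyAdmissible_infinite (C := FractionRing F[X]) (a := io F[X] a)
    (b := io F[X] b) hsat ?_
  intro hnil
  rw [← io_br] at hnil
  obtain ⟨k, hk⟩ := exists_pw_zero hnil
  have hpw : ∀ k, pw (io F[X] (br a b)) k = io F[X] (pw (br a b) k) := by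
    intro k
    induction k with
    | zero => rfl
    | succ k ih =>
      change P (pw (io F[X] (br a b)) k) (io F[X] (br a b)) = io F[X] (P (pw (br a b) k) (br a b))
      rw [ih, io_P]
  rw [hpw] at hk
  obtain ⟨s, hs, hs0⟩ := io_eq_zero hk
  have h1 := congrArg χ hs0
  rw [hsm, chi_act χ hmul, map_zero, chi_pw χ hmul] at h1
  rcases mul_eq_zero.1 h1 with h2 | h2
  · exact hs ((transcendental_iff.1 hτ) s h2)
  · exact hχ (pow_eq_zero_iff (Nat.succ_ne_zero k) |>.1 h2)

end Cent

/-- The case of a finite field. -/
theorem fin_case {F : Type u} [Field F] [Finite F] [NeZero (2 : F)] {A : Type u}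
    [NonUnitalNonAssocRing A] [Module F A] [IsScalarTower F A A] [SMulCommClass F A A] [KokA A]
    {T : Set (FreeNonUnitalNonAssocAlgebra F ℕ)} (hT : Sat T A) {a b : A}
    (hab : ¬ Nil (br a b)) : ¬ LocallyAdmissible T := by
  obtain ⟨p, hp⟩ := CharP.exists F
  have hprime : p.Prime := CharP.char_is_prime F p
  have hpA : ∀ x : A, p • x = 0 := by
    intro x
    rw [← Nat.cast_smul_eq_nsmul F, CharP.cast_eq_zero, zero_smul]
  obtain ⟨K, _, _, χ, hmul, hχ⟩ := exists_char (C := F) (br a b) hab
  have key : ∀ c : A, Transcendental F (χ c) → ¬ LocallyAdmissible T := by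
    intro c hc
    refine not_la_transc hT (w := pw c (p - 1)) (cen_pw_char hprime.two_le hpA c) χ hmul hχ ?_
    rw [chi_pw χ hmul, Nat.sub_add_cancel hprime.one_lt.le]
    exact hc.pow hprime.pos
  by_cases ha : IsAlgebraic F (χ a)
  · by_cases hb : IsAlgebraic F (χ b)
    · exact not_la_alg hprime hT χ hmul hχ ha hb
    · exact key b hb
  · exact key a ha

/-- All fields of characteristic not two. -/
theorem all_fields {F : Type u} [Field F] [NeZero (2 : F)] {A : Type u}
    [NonUnitalNonAssocRing A] [Module F A] [IsScalarTower F A A] [SMulCommClass F A A] [KokA A]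
    {T : Set (FreeNonUnitalNonAssocAlgebra F ℕ)} (hT : Sat T A) {a b : A}
    (hab : ¬ Nil (br a b)) : ¬ LocallyAdmissible T := by
  by_cases hF : Infinite F
  · exact not_locallyAdmissible_infinite (C := F) hT hab
  · have : Finite F := not_infinite_iff_finite.1 hF
    exact fin_case hT hab

end Pool.Agent.Y80.KK
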