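import Mathlib
import Pool.Agent.Y80.KK.Fin
import Pool.Agent.Y99.KO.Struct

set_option autoImplicit false
set_option linter.unusedSectionVars false

/-! A uniform bound for the nilpotency of the commutators. -/

namespace Pool.Agent.Y80.KK

open Pool.Agent.H551R3.Kok Pool.Agent.Y99.KO

universe u

/-- A Kokoris algebra satisfying the identities `T`, with two elements. -/
structure KP {F : Type u} [Field F] (T : Set (FreeNonUnitalNonAssocAlgebra F ℕ)) (n : ℕ) where
  A : Type u
  i1 : NonUnitalNonAssocRing A
  i2 : Module F A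
  i3 : IsScalarTower F A A
  i4 : SMulCommClass F A A
  sat : Sat T A
  kok : IsKokoris A
  a : A
  b : A
  ne : lpow (a * b - b * a) n ≠ 0

attribute [instance] KP.i1 KP.i2 KP.i3 KP.i4

theorem lpow_zero_mono {A : Type u} [NonUnitalNonAssocRing A] {x : A} {k m : ℕ} (h : lpow x k = 0)
    (hkm : k ≤ m) : lpow x m = 0 := by
  induction m, hkm using Nat.le_induction with
  | base => exact h
  | succ m _ ih =>
    change lpow x m * x = 0
    rw [ih, zero_mul]

theorem bound {F : Type u} [Field F] (h2 : (2 : F) ≠ 0)
    {T : Set (FreeNonUnitalNonAssocAlgebra F ℕ)} (hT : LocallyAdmissible T) :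
    ∃ n : ℕ, ∀ (A : Type u) [NonUnitalNonAssocRing A] [Module F A] [IsScalarTower F A A]
      [SMulCommClass F A A], Sat T A → IsKokoris A → ∀ a b : A, lpow (a * b - b * a) n = 0 := by
  classical
  have : NeZero (2 : F) := ⟨h2⟩
  by_contra hcon
  have hne : ∀ n : ℕ, Nonempty (KP T n) := by
    intro n
    by_contra hn
    apply hcon
    refine ⟨n, ?_⟩
    intro A _ _ _ _ hA hK a b
    by_contra hab
    exact hn ⟨⟨A, inferInstance, inferInstance, inferInstance, inferInstance, hA, hK, a, b, hab⟩⟩
  let B : ∀ n : ℕ, KP T n := fun n => Classical.choice (hne n)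
  let M : Type u := ∀ n : ℕ, (B n).A
  let j1 : NonUnitalNonAssocRing M := Pi.nonUnitalNonAssocRing
  let j2 : Module F M := Pi.module _ _ _
  have j3 : IsScalarTower F M M := ⟨fun r x y => funext fun n => by
    change (r • x n) * y n = r • (x n * y n)
    rw [smul_mul_assoc]⟩
  have j4 : SMulCommClass F M M := ⟨fun r x y => funext fun n => by
    change r • (x n * y n) = x n * (r • y n)
    rw [mul_smul_comm]⟩
  have hsat : Sat T M := by
    intro f hf v
    funext n
    have h3 : FreeNonUnitalNonAssocAlgebra.lift F v f = ev (RingHom.id F) v f := rfl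
    have h4 := ev_map (F := F) (R := F) (R' := F) (RingHom.id F) (RingHom.id F)
      (g := fun x : M => x n) (fun _ _ => rfl) (fun _ _ => rfl) (fun _ _ => rfl) v f
    rw [h3]
    exact h4.trans ((B n).sat f hf (fun i => v i n))
  have hkok : IsKokoris M := by
    intro x y z
    funext n
    exact (B n).kok (x n) (y n) (z n)
  have hKA : KokA M := ⟨noTwo_of_module (F := F), hkok⟩
  let a : M := fun n => (B n).a
  let b : M := fun n => (B n).b
  have hnil : Nil (br a b) := by
    by_contra hab
    exact all_fields hsat hab hT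
  obtain ⟨k, hk⟩ := (nil_iff (br a b)).1 hnil
  have hcoord : ∀ (k n : ℕ) (x : M), (lpow x k) n = lpow (x n) k := by
    intro k n x
    induction k with
    | zero => rfl
    | succ k ih =>
      change (lpow x k) n * x n = lpow (x n) k * x n
      rw [ih]
  have h5 := congrArg (fun x : M => x k) hk
  have h6 : lpow ((br a b : M) k) k = 0 := by
    rw [← hcoord]; exact h5
  exact (B k).ne h6

end Pool.Agent.Y80.KK
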